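import Pool.Agent.W290.LG.Stm2

/-!
# Project LG, part H: from coefficients to a representation
-/

set_option autoImplicit false

namespace Pool.Agent.W442.LG

open Pool.Agent Pool.Agent.NPC Pool.Agent.H881R2.Mat Pool.Agent.W290.LG

/-- the elements of the list as a finite set -/
def S (n : ℕ) (l : List ℕ) : Finset (Fin n) := Finset.univ.filter (fun i => (i : ℕ) ∈ l)

lemma mem_S {n : ℕ} {l : List ℕ} (i : Fin n) : i ∈ S n l ↔ (i : ℕ) ∈ l := by
  simp [S]

lemma sum_list {β : Type} [AddCommMonoid β] {n : ℕ} {l : List ℕ} (hnd : l.Nodup)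
    (hlt : ∀ i ∈ l, i < n) (f : ℕ → β) : (l.map f).sum = ∑ i ∈ S n l, f i := by
  rw [← List.sum_toFinset f hnd]
  symm
  refine Finset.sum_bij (fun i _ => (i : ℕ)) ?_ ?_ ?_ ?_
  · intro i hi
    exact List.mem_toFinset.mpr ((mem_S i).mp hi)
  · intro i _ j _ hij
    exact Fin.ext hij
  · intro x hx
    have hx' := List.mem_toFinset.mp hx
    exact ⟨⟨x, hlt x hx'⟩, (mem_S _).mpr hx', rfl⟩
  · intro i _
    rfl

/-- the vectors -/
noncomputable def vec (n : ℕ) (L : List (List ℕ)) (l0 : List ℕ) (c : ℕ → ℕ → ℕ → ℚ) :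
    Fin n → (Fin n → ℚ) :=
  fun j m => if (j : ℕ) ∈ L.flatten ∧ (m : ℕ) ∈ l0 then c 0 j m else 0

lemma nodup_of {l : List ℕ} (h : l.Pairwise (· < ·)) : l.Nodup :=
  h.imp (fun h => ne_of_lt h)

section
variable {n : ℕ} {L : List (List ℕ)} {l0 : List ℕ} {c : ℕ → ℕ → ℕ → ℚ}

lemma fact1 (hV : Valid (n, L)) (hc : Coef L c) (h0 : L[0]? = some l0) {b : ℕ} {l : List ℕ}
    (hb : L[b]? = some l) (j : Fin n) (hj : (j : ℕ) ∈ L.flatten) :
    vec n L l0 c j = ∑ k ∈ S n l, c b j k • vec n L l0 c k := by
  have hl : l ∈ L := List.mem_of_getElem? hb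
  have hl0 : l0 ∈ L := List.mem_of_getElem? h0
  have hV1 := hV l hl
  funext m
  rw [Finset.sum_apply]
  simp only [Pi.smul_apply, smul_eq_mul]
  by_cases hm : (m : ℕ) ∈ l0
  · have e1 : vec n L l0 c j m = c 0 j m := by
      unfold vec
      rw [if_pos ⟨hj, hm⟩]
    have e2 : ∀ k ∈ S n l, c b j k * vec n L l0 c k m = c b j k * c 0 k m := by
      intro k hk
      unfold vec
      rw [if_pos ⟨List.mem_flatten.mpr ⟨l, hl, (mem_S k).mp hk⟩, hm⟩]
    rw [e1, Finset.sum_congr rfl e2]
    have e3 := hc.tr b l hb 0 l0 h0 j hj m (List.mem_flatten.mpr ⟨l0, hl0, hm⟩)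
    rw [← e3, sum_list (n := n) (nodup_of hV1.1) hV1.2]
  · have e1 : ∀ k : Fin n, vec n L l0 c k m = 0 := by
      intro k
      unfold vec
      rw [if_neg]
      exact fun h => hm h.2
    rw [e1]
    symm
    refine Finset.sum_eq_zero fun k _ => ?_
    rw [e1, mul_zero]

lemma fact2 (hV : Valid (n, L)) (hc : Coef L c) (h0 : L[0]? = some l0) {b : ℕ} {l : List ℕ}
    (hb : L[b]? = some l) (a : Fin n → ℚ)
    (ha : ∑ k ∈ S n l, a k • vec n L l0 c k = 0) : ∀ k ∈ S n l, a k = 0 := by
  have hl : l ∈ L := List.mem_of_getElem? hb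
  have hl0 : l0 ∈ L := List.mem_of_getElem? h0
  have hV0 := hV l0 hl0
  intro k' hk'
  have hcol : ∀ m ∈ S n l0, ∑ k ∈ S n l, a k * c 0 k m = 0 := by
    intro m hm
    have h1 := congrFun ha m
    rw [Finset.sum_apply] at h1
    simp only [Pi.smul_apply, smul_eq_mul, Pi.zero_apply] at h1
    rw [← h1]
    refine Finset.sum_congr rfl fun k hk => ?_
    unfold vec
    rw [if_pos ⟨List.mem_flatten.mpr ⟨l, hl, (mem_S k).mp hk⟩, (mem_S m).mp hm⟩]
  have e1 : a k' = ∑ k ∈ S n l, a k * c b k k' := by
    rw [Finset.sum_eq_single k']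
    · rw [hc.one b l hb k' ((mem_S _).mp hk') k' ((mem_S _).mp hk'), if_pos rfl, mul_one]
    · intro k hk hne
      rw [hc.one b l hb k ((mem_S _).mp hk) k' ((mem_S _).mp hk'), if_neg, mul_zero]
      exact fun h => hne (Fin.ext h)
    · intro h
      exact absurd hk' h
  have e2 : ∀ k ∈ S n l, a k * c b k k' = ∑ m ∈ S n l0, (a k * c 0 k m) * c b m k' := by
    intro k hk
    have e3 := hc.tr 0 l0 h0 b l hb k (List.mem_flatten.mpr ⟨l, hl, (mem_S k).mp hk⟩) k'
      (List.mem_flatten.mpr ⟨l, hl, (mem_S k').mp hk'⟩)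
    rw [sum_list (n := n) (nodup_of hV0.1) hV0.2] at e3
    rw [← e3, Finset.mul_sum]
    refine Finset.sum_congr rfl fun m _ => ?_
    rw [mul_assoc]
  rw [e1, Finset.sum_congr rfl e2, Finset.sum_comm]
  refine Finset.sum_eq_zero fun m hm => ?_
  rw [← Finset.sum_mul, hcol m hm, zero_mul]

lemma fact3 (hV : Valid (n, L)) (hc : Coef L c) (h0 : L[0]? = some l0) {b : ℕ} {l : List ℕ}
    (hb : L[b]? = some l) :
    LinearIndepOn ℚ (vec n L l0 c) (S n l : Set (Fin n)) ∧
      Submodule.span ℚ (vec n L l0 c '' (S n l : Set (Fin n))) =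
        Submodule.span ℚ (Set.range (vec n L l0 c)) := by
  constructor
  · rw [linearIndepOn_finset_iff]
    exact fun a ha => fact2 hV hc h0 hb a ha
  · apply le_antisymm
    · exact Submodule.span_mono (Set.image_subset_range _ _)
    · rw [Submodule.span_le]
      rintro _ ⟨j, rfl⟩
      by_cases hj : (j : ℕ) ∈ L.flatten
      · rw [fact1 hV hc h0 hb j hj]
        refine Submodule.sum_mem _ fun k hk => Submodule.smul_mem _ _ ?_
        exact Submodule.subset_span ⟨k, hk, rfl⟩
      · have e : vec n L l0 c j = 0 := by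
          funext m
          unfold vec
          rw [if_neg]
          · rfl
          · exact fun h => hj h.1
        rw [e]
        exact Submodule.zero_mem _

end

lemma card_of_span {n : ℕ} {v : Fin n → (Fin n → ℚ)} {B : Finset (Fin n)}
    (h : LinearIndepOn ℚ v (B : Set (Fin n)))
    (hs : Submodule.span ℚ (v '' (B : Set (Fin n))) = Submodule.span ℚ (Set.range v)) :
    B.card = Module.finrank ℚ (Submodule.span ℚ (Set.range v)) := by
  have h2 : LinearIndependent ℚ (fun i : B => v i) := h
  have h3 := finrank_span_eq_card h2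
  have h4 : Set.range (fun i : B => v i) = v '' (B : Set (Fin n)) := by
    ext x
    simp
  rw [h4, hs] at h3
  rw [h3]
  simp

theorem t_H : S_H := by
  rintro ⟨n, L⟩ hV hL ⟨c, hc⟩
  simp only at hL hc
  obtain ⟨l0, L', rfl⟩ : ∃ l0 L', L = l0 :: L' := List.exists_cons_of_ne_nil hL
  set L : List (List ℕ) := l0 :: L' with hLdef
  have h0 : L[0]? = some l0 := by simp [hLdef]
  refine ⟨n, vec n L l0 c, fun B => ?_⟩
  show Listed L B ↔ (LinearIndepOn ℚ (vec n L l0 c) (B : Set (Fin n)) ∧ _)
  constructor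
  · rintro ⟨l, hl, hB⟩
    obtain ⟨b, hb⟩ := List.mem_iff_getElem?.mp hl
    have hBS : B = S n l := by
      ext i
      rw [mem_S]
      exact hB i
    rw [hBS]
    exact fact3 hV hc h0 hb
  · rintro ⟨hind, hspan⟩
    -- a listed set with the largest intersection
    obtain ⟨l, hl, hmax⟩ := Finset.exists_max_image L.toFinset
      (fun l => (S n l ∩ B).card) ⟨l0, by simp [hLdef]⟩
    rw [List.mem_toFinset] at hl
    refine ⟨l, hl, ?_⟩
    obtain ⟨b, hb⟩ := List.mem_iff_getElem?.mp hl
    obtain ⟨hi, hs⟩ := fact3 hV hc h0 hb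
    have hcard : B.card = (S n l).card := by
      rw [card_of_span hind hspan, card_of_span hi hs]
    have hsub : B ⊆ S n l := by
      intro j hjB
      by_contra hjS
      have hvj : vec n L l0 c j ≠ 0 := hind.ne_zero hjB
      have hjE : (j : ℕ) ∈ L.flatten := by
        by_contra hj
        apply hvj
        funext m
        unfold vec
        rw [if_neg]
        · rfl
        · exact fun h => hj h.1
      have hex : ∃ k ∈ S n l, k ∉ B ∧ c b j k ≠ 0 := by
        by_contra hcon
        push Not at hcon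
        have hmem : vec n L l0 c j ∈
            Submodule.span ℚ (vec n L l0 c '' ((B : Set (Fin n)) \ {j})) := by
          rw [fact1 hV hc h0 hb j hjE]
          refine Submodule.sum_mem _ fun k hk => ?_
          by_cases hkB : k ∈ B
          · refine Submodule.smul_mem _ _ (Submodule.subset_span ⟨k, ⟨hkB, ?_⟩, rfl⟩)
            intro hkj
            rw [Set.mem_singleton_iff] at hkj
            exact hjS (hkj ▸ hk)
          · rw [hcon k hk hkB, zero_smul]
            exact Submodule.zero_mem _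
        exact (linearIndepOn_iff_notMem_span.mp hind) j hjB hmem
      obtain ⟨k, hkS, hkB, hck⟩ := hex
      have hjl : (j : ℕ) ∉ l := fun h => hjS ((mem_S j).mpr h)
      have h1 := (hc.ex b l hb j hjE hjl k ((mem_S k).mp hkS)).mp hck
      unfold exch at h1
      rw [List.any_eq_true] at h1
      obtain ⟨l', hl', h2⟩ := h1
      simp only [Bool.and_eq_true, decide_eq_true_eq, List.all_eq_true, Bool.or_eq_true,
        Bool.not_eq_true', decide_eq_false_iff_not] at h2
      obtain ⟨h3, h4, h5⟩ := h2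
      have h6 : insert j (S n l ∩ B) ⊆ S n l' ∩ B := by
        intro x hx
        rw [Finset.mem_insert] at hx
        rw [Finset.mem_inter, mem_S]
        rcases hx with rfl | hx
        · exact ⟨h3, hjB⟩
        · rw [Finset.mem_inter, mem_S] at hx
          refine ⟨?_, hx.2⟩
          rcases h5 x hx.1 with h7 | h7
          · exfalso
            have : x = k := Fin.ext h7
            exact hkB (this ▸ hx.2)
          · exact h7
      have h7 : (S n l ∩ B).card + 1 ≤ (S n l' ∩ B).card := by
        rw [← Finset.card_insert_of_notMem (s := S n l ∩ B) (a := j)]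
        · exact Finset.card_le_card h6
        · intro h
          exact hjS (Finset.mem_inter.mp h).1
      have h8 := hmax l' (List.mem_toFinset.mpr hl')
      omega
    have hBS : B = S n l := Finset.eq_of_subset_of_card_le hsub hcard.ge
    intro i
    rw [hBS, mem_S]

end Pool.Agent.W442.LG
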